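import Pool.Agent.Helper6.OB.Goals

/-!
# Project OB, packet URP: the property (UR) for the new type function
-/

set_option autoImplicit false

namespace Pool.Agent.Helper15.OB

open Pool.Agent.Helper6.CS Pool.Agent.Helper6.OB
open Pool.Agent.Helper41.CS (len_app app_assoc len_nil nil_app app_nil over_nil over_app)

set_option synthInstance.maxSize 1000000000

theorem t_URP : Pool.Agent.Helper6.OB.G_URP := by
  intro hLMO hLST hURL M _ a b ρ H G Φ g₀ S hab hSt hΦ hP L
  have iH : IFn M H := hSt.ifn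
  have iG : IP M fun p : M × (Wd M × Wd M) => G p.1 p.2 := hSt.ip
  have iΦ : IFn M fun p : Wd M × (Wd M × Wd M) => Φ p.1 p.2 := hΦ.ifn
  have ig : IFn M g₀ := hP.ig
  have iS : IFn M S := hP.iS
  have iH' : IFn M (nH (gp g₀) H) := inferInstance
  -- the type of the empty word
  have h1 : Vio a b H (pr L (Cod.cd (rst b L (nH (gp g₀) H)))) (Wd.of (nb b L) g₀) := by
    refine ⟨Wd.nil M, L, rst b L (nH (gp g₀) H), over_nil _, rfl, ?_, ?_⟩
    · intro p hp hl
      rw [app_nil, Wd.len_of]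
      exact nb_spec hp hl
    · rw [rst_eq]
      intro p hp hl
      rw [app_nil, Wd.get_of_lt _ _ (nb_spec hp hl)]
      rfl
  have h2 : S (pr L (Cod.cd (rst b L (nH (gp g₀) H)))) ≠ 1 := fun h => hP.g2 _ _ h h1
  obtain ⟨N, hN⟩ := hP.g3 _ h2
  obtain ⟨Ls, hLs⟩ := hLST hLMO M a b ρ N H G Φ hSt hΦ.ifn
  obtain ⟨β', hβ⟩ := hSt.ur (Ls + N)
  refine ⟨N + β', fun h hh => ?_⟩
  obtain ⟨ζ, hζ, hζl, hζH⟩ := hβ h hh
  have hw : Over a (ζ ++ h) := over_app hζ hh
  have hwH : ∀ p, Over b p → p.len ≤ Ls + N → H (p ++ (ζ ++ h)) = H p := by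
    intro p hp hl
    rw [← app_assoc]
    exact hζH p hp hl
  obtain ⟨w, hwdef⟩ : ∃ w, w = ζ ++ h := ⟨_, rfl⟩
  rw [← hwdef] at hw hwH
  obtain ⟨D, hD⟩ : ∃ D : Wd M, D = Wd.of N fun i => g₀ (Cod.cd (dec i ++ w)) := ⟨_, rfl⟩
  have iD : IFn M fun i : M => g₀ (Cod.cd (dec i ++ w)) := inferInstance
  have hDl : D.len = N := by rw [hD, Wd.len_of]
  have hDo : Over ρ D := by
    intro i hi
    rw [hDl] at hi
    rw [hD, Wd.get_of_lt _ _ hi]
    exact hP.bd _
  have hDL : Lam a b G Φ Ls D := by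
    rw [hD]
    refine hURL M a b ρ H G Φ g₀ S hab hSt hΦ hP Ls N w hw fun p hp hl => hwH p hp ?_
    exact hl.trans (le_add_of_nonneg_right (World.zero_le' _))
  have hDA : LamA a b G Φ D := hLs D hDo hDl hDL
  -- the values at the places of an occurrence
  have key : ∀ (q : Wd M) (m : M), Over a q →
      (∀ p, Over b p → p.len ≤ m → (Cod.cd (p ++ q) : M) < D.len) → ∀ p, Over b p → p.len ≤ m →
      D.get (Cod.cd (p ++ q)) = g₀ (Cod.cd (p ++ (q ++ w))) ∧
        H (p ++ q) = H (p ++ (q ++ w)) := by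
    intro q m hq hlt p hp hl
    have h3 := hlt p hp hl
    rw [hDl] at h3
    constructor
    · rw [hD, Wd.get_of_lt _ _ h3, dec_cd, app_assoc]
    · have h4 : (p ++ q).len ≤ Ls + N := by
        refine (len_le_cd (p ++ q)).trans (h3.le.trans ?_)
        exact le_add_of_nonneg_left (World.zero_le' _)
      have h5 := hwH (p ++ q) (over_app hp (Pool.Agent.Helper41.CS.Over.mono hq hab)) h4
      rw [← h5, app_assoc]
  -- no avoided type occurs in `D`
  have h6 : ∀ i, S i = 1 → ¬ Vio a b H i D := by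
    rintro i hi ⟨q, m, E', hq, hiE, hlt, hE⟩
    refine hP.g2 i (nb b (m + (q ++ w).len)) hi ⟨q ++ w, m, E', over_app hq hw, hiE, ?_, ?_⟩
    · intro p hp hl
      rw [Wd.len_of]
      refine nb_spec (over_app hp (Pool.Agent.Helper41.CS.Over.mono (over_app hq hw) hab)) ?_
      rw [len_app]
      gcongr
    · rw [← hE, rst_eq]
      intro p hp hl
      obtain ⟨k1, k2⟩ := key q m hq hlt p hp hl
      rw [k1, k2]
      have h7 : (Cod.cd (p ++ (q ++ w)) : M) < nb b (m + (q ++ w).len) := by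
        refine nb_spec (over_app hp (Pool.Agent.Helper41.CS.Over.mono (over_app hq hw) hab)) ?_
        rw [len_app]
        gcongr
      rw [Wd.get_of_lt _ _ h7]
  obtain ⟨q, m, E', hq, hj, hlt, hE⟩ := hN D hDl hDo hDA fun i _ hi => h6 i hi
  obtain ⟨hm, hEE⟩ := pr_inj hj
  rw [Cod.cd_eq] at hEE
  subst hm
  rw [← hEE, rst_eq] at hE
  refine ⟨q ++ ζ, over_app hq hζ, ?_, ?_⟩
  · rw [len_app]
    have h8 := hlt (Wd.nil M) (over_nil _) (by rw [len_nil]; exact World.zero_le' _)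
    rw [nil_app, hDl] at h8
    have h9 : q.len ≤ N := (len_le_cd q).trans h8.le
    gcongr
  · intro p hp hl
    obtain ⟨k1, k2⟩ := key q L hq hlt p hp hl
    have h10 := hE p hp hl
    rw [k1, k2] at h10
    rw [← h10, hwdef]
    have h11 : p ++ (q ++ ζ) ++ h = p ++ (q ++ (ζ ++ h)) := by rw [app_assoc, app_assoc]
    rw [h11]
    rfl

end Pool.Agent.Helper15.OB
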